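import Pool.Agent.H71.PO.Emb

set_option autoImplicit false
set_option linter.unusedSectionVars false

/-!
# Locating sets of binary relations
-/

namespace Pool.Agent.H71.PO

open Finset Classical
open Pool.Agent.H71.LOC (Comp ncard_filter greedy num)

variable {V : Type} [Fintype V]

theorem pe_le_pow (G : V → V → Prop) (D : Finset V) :
    (pe G G D).card ≤ Fintype.card V ^ D.card := by
  have h1 : (pe G G D).card ≤ (univ : Finset (D → V)).card := by
    have hex : ∀ J ∈ pe G G D, ∀ x : D, ∃ w, ((x : V), w) ∈ J := by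
      intro J hJ x
      rw [mem_pe] at hJ
      have : (x : V) ∈ J.image Prod.fst := by rw [hJ.2]; exact x.2
      rw [mem_image] at this
      obtain ⟨p, hp, hpx⟩ := this
      exact ⟨p.2, by rw [← hpx]; exact hp⟩
    apply card_le_card_of_injOn (fun J => if hJ : J ∈ pe G G D then
      fun x => (hex J hJ x).choose else fun x => x)
    · intro J _
      exact mem_univ _
    · intro J hJ J' hJ' e
      rw [mem_coe] at hJ hJ'
      have e' : (fun x => (hex J hJ x).choose) = (fun x => (hex J' hJ' x).choose) := by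
        have := e
        simp only [dif_pos hJ, dif_pos hJ'] at this
        exact this
      have key : ∀ (A B : Finset (V × V)) (hA : A ∈ pe G G D) (hB : B ∈ pe G G D),
          (fun x => (hex A hA x).choose) = (fun x => (hex B hB x).choose) → A ⊆ B := by
        intro A B hA hB hAB p hp
        have hA' := mem_pe.mp hA
        have hB' := mem_pe.mp hB
        have hpD : p.1 ∈ D := by
          rw [← hA'.2]
          exact mem_image_of_mem _ hp
        have h2 := (hex A hA ⟨p.1, hpD⟩).choose_spec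
        have h3 := (hex B hB ⟨p.1, hpD⟩).choose_spec
        have h4 := congrFun hAB ⟨p.1, hpD⟩
        have h5 : (p.1, (hex A hA ⟨p.1, hpD⟩).choose) = p := fst_inj hA'.1 h2 hp rfl
        have h6 : (hex A hA ⟨p.1, hpD⟩).choose = p.2 := congrArg Prod.snd h5
        have h7 : (hex B hB ⟨p.1, hpD⟩).choose = p.2 := by rw [← h6]; exact h4.symm
        rw [h7] at h3
        exact h3
      exact Subset.antisymm (key J J' hJ hJ' e') (key J' J hJ' hJ e'.symm)
  rw [card_univ, Fintype.card_fun, Fintype.card_coe] at h1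
  exact h1

/-- the number of the vertices other than `x` and `y` which are adjacent to exactly one of `x` and
`y` -/
noncomputable def dst (G : V → V → Prop) (x y : V) : ℕ :=
  {z : V | z ≠ x ∧ z ≠ y ∧ ¬ ((G x z ↔ G y z) ∧ (G z x ↔ G z y))}.ncard

theorem dst_eq (G : V → V → Prop) (x y : V) :
    dst G x y = (univ.filter (fun z => z ≠ x ∧ z ≠ y ∧ ¬ ((G x z ↔ G y z) ∧ (G z x ↔ G z y)))).card := by
  unfold dst
  rw [← Set.ncard_coe_finset]
  congr 1
  ext z
  simp

theorem dst_le (G : V → V → Prop) {x y : V} (hxy : x ≠ y) : dst G x y + 2 ≤ Fintype.card V := by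
  rw [dst_eq]
  have h1 : univ.filter (fun z => z ≠ x ∧ z ≠ y ∧ ¬ ((G x z ↔ G y z) ∧ (G z x ↔ G z y))) ⊆
      (univ.erase x).erase y := by
    intro z hz
    rw [mem_filter] at hz
    rw [mem_erase, mem_erase]
    exact ⟨hz.2.2.1, hz.2.1, mem_univ _⟩
  have h2 := card_le_card h1
  have h3 : y ∈ univ.erase x := mem_erase.mpr ⟨hxy.symm, mem_univ _⟩
  rw [card_erase_of_mem h3, card_erase_of_mem (mem_univ x), card_univ] at h2
  have h4 : 2 ≤ Fintype.card V := by
    rw [← card_univ]
    exact one_lt_card.mpr ⟨x, mem_univ _, y, mem_univ _, hxy⟩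
  omega

theorem exists_locT (G : V → V → Prop) (T : V → V → Prop) (B : Finset V) (q : ℝ) (hq0 : 0 < q)
    (h : ∀ x y : V, x ∉ B → y ∉ B → x ≠ y → T x y → q ≤ (dst G x y : ℝ)) :
    ∃ D : Finset V, (∀ x y : V, x ∉ D → y ∉ D → T x y → (∀ d ∈ D, (G x d ↔ G y d) ∧ (G d x ↔ G d y)) → x = y) ∧
      (D.card : ℝ) ≤ B.card + 2 * Fintype.card V * Real.log (Fintype.card V) / q + 1 := by
  by_cases hpair : ∃ x y : V, x ∉ B ∧ y ∉ B ∧ x ≠ y ∧ T x y
  swap
  · refine ⟨B, fun x y hx hy hT _ => ?_, ?_⟩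
    · by_contra hne
      exact hpair ⟨x, y, hx, hy, hne, hT⟩
    · have h1 : 0 ≤ 2 * (Fintype.card V : ℝ) * Real.log (Fintype.card V) / q := by
        apply div_nonneg _ hq0.le
        apply mul_nonneg (by positivity)
        exact Real.log_natCast_nonneg _
      linarith
  obtain ⟨x0, y0, hx0, hy0, hne0, hT0⟩ := hpair
  have hn2 : 2 ≤ Fintype.card V := by
    rw [← card_univ]
    exact one_lt_card.mpr ⟨x0, mem_univ _, y0, mem_univ _, hne0⟩
  have hn : (0 : ℝ) < Fintype.card V := by
    have : 0 < Fintype.card V := by omega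
    exact_mod_cast this
  have hqn : q ≤ Fintype.card V := by
    refine (h x0 y0 hx0 hy0 hne0 hT0).trans ?_
    have := dst_le G hne0
    have h1 : dst G x0 y0 ≤ Fintype.card V := by omega
    exact_mod_cast h1
  set n : ℝ := (Fintype.card V : ℝ) with hndef
  set t : ℝ := 2 * n * Real.log n / q with ht
  have ht0 : 0 ≤ t := by
    apply div_nonneg _ hq0.le
    apply mul_nonneg (by positivity)
    exact Real.log_natCast_nonneg _
  set m : ℕ := ⌈t⌉₊ with hm
  let P : Finset (V × V) := univ.filter (fun p => p.1 ∉ B ∧ p.2 ∉ B ∧ p.1 ≠ p.2 ∧ T p.1 p.2)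
  obtain ⟨D, hDm, hR⟩ := greedy P
    (fun z p => z ≠ p.1 ∧ z ≠ p.2 ∧ ¬ ((G p.1 z ↔ G p.2 z) ∧ (G z p.1 ↔ G z p.2))) q hqn (by
      intro p hp
      have hp' := (mem_filter.mp hp).2
      exact h p.1 p.2 hp'.1 hp'.2.1 hp'.2.2.1 hp'.2.2.2) m
  have hP : (P.card : ℝ) < n ^ 2 := by
    have h1 : P ⊂ univ := by
      rw [ssubset_univ_iff]
      intro e
      have : (x0, x0) ∈ P := by rw [e]; exact mem_univ _
      exact (mem_filter.mp this).2.2.2.1 rfl
    have h2 := card_lt_card h1
    rw [card_univ, Fintype.card_prod] at h2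
    have h3 : ((P.card : ℕ) : ℝ) < ((Fintype.card V * Fintype.card V : ℕ) : ℝ) := by
      exact_mod_cast h2
    rw [Nat.cast_mul] at h3
    rw [pow_two]
    exact h3
  have hpow : (1 - q / n) ^ m ≤ (n ^ 2)⁻¹ := by
    have h1 : 1 - q / n ≤ Real.exp (-(q / n)) := by
      have := Real.add_one_le_exp (-(q / n))
      linarith
    have h0 : 0 ≤ 1 - q / n := by
      rw [sub_nonneg, div_le_one hn]
      exact hqn
    have h2 : (1 - q / n) ^ m ≤ Real.exp (-(q / n)) ^ m := pow_le_pow_left₀ h0 h1 m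
    rw [← Real.exp_nat_mul] at h2
    have h3 : Real.exp ((m : ℝ) * -(q / n)) ≤ Real.exp (-(2 * Real.log n)) := by
      apply Real.exp_le_exp.mpr
      have h4 : t ≤ (m : ℝ) := Nat.le_ceil t
      have h5 : t * (q / n) = 2 * Real.log n := by
        rw [ht]
        field_simp
      have h6 : t * (q / n) ≤ m * (q / n) := mul_le_mul_of_nonneg_right h4 (by positivity)
      linarith
    have h4 : Real.exp (-(2 * Real.log n)) = (n ^ 2)⁻¹ := by
      rw [Real.exp_neg]
      congr 1
      rw [two_mul, Real.exp_add, Real.exp_log hn, pow_two]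
    rw [← h4]
    exact h2.trans h3
  have hR0 : P.filter (fun p => ∀ z ∈ D, ¬ (z ≠ p.1 ∧ z ≠ p.2 ∧ ¬ ((G p.1 z ↔ G p.2 z) ∧ (G z p.1 ↔ G z p.2))))
      = ∅ := by
    rw [← card_eq_zero]
    have h0 : 0 ≤ (1 - q / n) ^ m := by
      apply pow_nonneg
      rw [sub_nonneg, div_le_one hn]
      exact hqn
    have h1 : (P.card : ℝ) * (1 - q / n) ^ m < 1 := by
      rcases eq_or_lt_of_le h0 with h2 | h2
      · rw [← h2, mul_zero]
        norm_num
      · calc (P.card : ℝ) * (1 - q / n) ^ m < n ^ 2 * (1 - q / n) ^ m :=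
              mul_lt_mul_of_pos_right hP h2
          _ ≤ n ^ 2 * (n ^ 2)⁻¹ := mul_le_mul_of_nonneg_left hpow (by positivity)
          _ = 1 := mul_inv_cancel₀ (by positivity)
    have h2 := lt_of_le_of_lt hR h1
    have h3 : (P.filter (fun p => ∀ z ∈ D, ¬ (z ≠ p.1 ∧ z ≠ p.2 ∧
        ¬ ((G p.1 z ↔ G p.2 z) ∧ (G z p.1 ↔ G z p.2))))).card < 1 := by exact_mod_cast h2
    omega
  refine ⟨B ∪ D, ?_, ?_⟩
  · intro x y hx hy hT hxy
    by_contra hne
    rw [mem_union, not_or] at hx hy
    have h1 : (x, y) ∈ P.filter (fun p => ∀ z ∈ D, ¬ (z ≠ p.1 ∧ z ≠ p.2 ∧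
        ¬ ((G p.1 z ↔ G p.2 z) ∧ (G z p.1 ↔ G z p.2)))) := by
      rw [mem_filter]
      refine ⟨mem_filter.mpr ⟨mem_univ _, hx.1, hy.1, hne, hT⟩, fun z hz h2 => ?_⟩
      exact h2.2.2 (hxy z (mem_union_right _ hz))
    rw [hR0] at h1
    exact absurd h1 (notMem_empty _)
  · have h1 : ((B ∪ D).card : ℝ) ≤ B.card + D.card := by exact_mod_cast card_union_le B D
    have h2 : (D.card : ℝ) ≤ m := by exact_mod_cast hDm
    have h3 : (m : ℝ) < t + 1 := Nat.ceil_lt_add_one ht0
    linarith



/-- from the order of the locating set to the number of its copies -/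
theorem few_of_card (G : V → V → Prop) {D : Finset V}
    (h : (D.card : ℝ) * (2 * Real.logb 2 (Fintype.card V) + 1) + 2 < (Fintype.card V : ℝ)) :
    4 * (pe G G D).card ^ 2 < 2 ^ (Fintype.card V - D.card) := by
  have hDn : D.card ≤ Fintype.card V := card_le_univ D
  have hn : 0 < Fintype.card V := by
    by_contra h0
    have h0' : Fintype.card V = 0 := by omega
    have hD0 : D.card = 0 := by omega
    rw [h0', hD0] at h
    norm_num at h
  have hn' : (0 : ℝ) < (Fintype.card V : ℝ) := by exact_mod_cast hn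
  have e1 : ((Fintype.card V : ℝ)) ^ (2 * D.card) =
      (2 : ℝ) ^ (((2 * D.card : ℕ) : ℝ) * Real.logb 2 (Fintype.card V)) := by
    rw [mul_comm ((2 * D.card : ℕ) : ℝ), Real.rpow_mul (by norm_num),
      Real.rpow_logb (by norm_num) (by norm_num) hn', Real.rpow_natCast]
  have h2 : (4 : ℝ) * (Fintype.card V : ℝ) ^ (2 * D.card) <
      (2 : ℝ) ^ (Fintype.card V - D.card) := by
    rw [e1, ← Real.rpow_natCast, Nat.cast_sub hDn]
    have e2 : (4 : ℝ) = (2 : ℝ) ^ (2 : ℝ) := by norm_num
    rw [e2, ← Real.rpow_add (by norm_num)]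
    apply Real.rpow_lt_rpow_of_exponent_lt (by norm_num)
    push_cast
    linarith
  have h3 : 4 * Fintype.card V ^ (2 * D.card) < 2 ^ (Fintype.card V - D.card) := by
    exact_mod_cast h2
  have h1 := Nat.pow_le_pow_left (pe_le_pow G D) 2
  rw [← pow_mul, mul_comm D.card 2] at h1
  omega

/-- **A coloured locating set.** -/
theorem exLocT (G : V → V → Prop) (T : V → V → Prop) (h3 : 3 ≤ Fintype.card V)
    (h : ∀ x y : V, x ≠ y → T x y → 8 * Real.log (Fintype.card V) ^ 2 ≤ (dst G x y : ℝ)) :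
    ∃ D : Finset V, (∀ x y : V, x ∉ D → y ∉ D → T x y → (∀ d ∈ D, (G x d ↔ G y d) ∧ (G d x ↔ G d y)) → x = y) ∧
      4 * (pe G G D).card ^ 2 < 2 ^ (Fintype.card V - D.card) := by
  by_cases hpair : ∃ x y : V, x ≠ y ∧ T x y
  swap
  · refine ⟨∅, fun x y _ _ hT _ => ?_, ?_⟩
    · by_contra hne
      exact hpair ⟨x, y, hne, hT⟩
    · have h1 : (pe G G ∅).card ≤ 1 := by
        rw [card_le_one]
        intro a ha b hb
        rw [mem_pe] at ha hb
        rw [image_eq_empty.mp ha.2, image_eq_empty.mp hb.2]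
      have h2 := Nat.pow_le_pow_left h1 2
      rw [card_empty, Nat.sub_zero]
      have h4 : 2 ^ 3 ≤ 2 ^ Fintype.card V := Nat.pow_le_pow_right (by norm_num) h3
      omega
  obtain ⟨x, y, hxy, hT⟩ := hpair
  have hd := h x y hxy hT
  have hd2 : (dst G x y : ℝ) ≤ Fintype.card V - 2 := by
    have := dst_le G hxy
    have h1 : ((dst G x y + 2 : ℕ) : ℝ) ≤ Fintype.card V := by exact_mod_cast this
    push_cast at h1
    linarith
  have hlog : Real.log 2 ≤ Real.log (Fintype.card V) :=
    Real.log_le_log (by norm_num) (by exact_mod_cast (by omega : 2 ≤ Fintype.card V))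
  have hl2 := Real.log_two_gt_d9
  have hlpos : 0 < Real.log (Fintype.card V) := by linarith
  have hnum := num h3 (by linarith)
  obtain ⟨D, hD, hc⟩ := exists_locT G T ∅ (8 * Real.log (Fintype.card V) ^ 2) (by positivity)
    (fun x y _ _ => h x y)
  refine ⟨D, hD, few_of_card G ?_⟩
  have e1 : 2 * (Fintype.card V : ℝ) * Real.log (Fintype.card V) /
      (8 * Real.log (Fintype.card V) ^ 2) = Fintype.card V / (4 * Real.log (Fintype.card V)) := by
    have : Real.log (Fintype.card V) ≠ 0 := by linarith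
    field_simp
    ring
  rw [e1, card_empty, Nat.cast_zero, zero_add] at hc
  have h5 : 0 ≤ 2 * Real.logb 2 (Fintype.card V) + 1 := by
    have : 0 ≤ Real.logb 2 (Fintype.card V) :=
      Real.logb_nonneg (by norm_num) (by exact_mod_cast (by omega : 1 ≤ Fintype.card V))
    linarith
  have h6 := mul_le_mul_of_nonneg_right hc h5
  linarith

end Pool.Agent.H71.PO
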